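import Pool.Agent.EWG.StmtsB
import Pool.Agent.EWG.StmtsC

/-!
# EWG row BVW (helper2): the result of part B implies its weak form
-/

set_option autoImplicit false

namespace Pool.Agent.EWG.H2

open Finset

theorem bvw (h : BvfStmt) : BvfW := by
  intro δ ε η hδ hε hη
  obtain ⟨X, hX⟩ := Filter.eventually_atTop.1 (h δ ε η hδ hε hη)
  refine ⟨max X 3, fun x hx => ?_⟩
  have hx1 : X ≤ x := le_trans (le_max_left _ _) hx
  have hx3 : 3 ≤ x := le_trans (le_max_right _ _) hx
  have h1 := hX x hx1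
  have hlog : 1 ≤ Real.log x := by
    rw [Real.le_log_iff_exp_le (by exact_mod_cast (by omega : 0 < x))]
    have h2 : Real.exp 1 < 3 := by
      have := Real.exp_one_lt_d9
      linarith
    have h3 : (3 : ℝ) ≤ x := by exact_mod_cast hx3
    linarith
  have hI : Finset.Ioc 0 x = Finset.Icc 1 x := by
    ext n
    simp only [Finset.mem_Ioc, Finset.mem_Icc]
    omega
  have hF : (pr (Icc 1 x)).filter
      (fun l : ℕ => (x : ℝ) ^ δ < l ∧ (l : ℝ) ≤ (x : ℝ) ^ (1 / 2 - ε)) =
      (Finset.Icc 1 x).filter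
        (fun l : ℕ => l.Prime ∧ (x : ℝ) ^ δ < l ∧ (l : ℝ) ≤ (x : ℝ) ^ (1 / 2 - ε)) := by
    ext l
    simp only [Finset.mem_filter, mem_pr]
    tauto
  rw [hF]
  rw [hI] at h1
  refine le_trans h1 ?_
  have h4 : 0 ≤ η * (x : ℝ) := by positivity
  nlinarith

end Pool.Agent.EWG.H2
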